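import Pool.Agent.H31.CN.T1

/-!
# The substitution action on binary quadratic forms
-/

set_option autoImplicit false

open MeasureTheory Set Filter
open scoped Real Matrix MatrixGroups

namespace Pool.Agent.H50.CN

open Pool.Agent.H31.CN

theorem det_one (g : SL(2, ℤ)) : g 0 0 * g 1 1 - g 0 1 * g 1 0 = 1 := by
  have h := g.det_coe
  rw [Matrix.det_fin_two] at h
  exact h

theorem mul00 (g h : SL(2, ℤ)) : (g * h) 0 0 = g 0 0 * h 0 0 + g 0 1 * h 1 0 := by
  rw [Matrix.SpecialLinearGroup.coe_mul, Matrix.mul_apply, Fin.sum_univ_two]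

theorem mul01 (g h : SL(2, ℤ)) : (g * h) 0 1 = g 0 0 * h 0 1 + g 0 1 * h 1 1 := by
  rw [Matrix.SpecialLinearGroup.coe_mul, Matrix.mul_apply, Fin.sum_univ_two]

theorem mul10 (g h : SL(2, ℤ)) : (g * h) 1 0 = g 1 0 * h 0 0 + g 1 1 * h 1 0 := by
  rw [Matrix.SpecialLinearGroup.coe_mul, Matrix.mul_apply, Fin.sum_univ_two]

theorem mul11 (g h : SL(2, ℤ)) : (g * h) 1 1 = g 1 0 * h 0 1 + g 1 1 * h 1 1 := by
  rw [Matrix.SpecialLinearGroup.coe_mul, Matrix.mul_apply, Fin.sum_univ_two]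

theorem val_act (Q : QF) (g : SL(2, ℤ)) (v : ℤ × ℤ) : val (act Q g) v = val Q (gv g v) := by
  unfold val act gv val
  simp only
  ring

theorem dsc_act (Q : QF) (g : SL(2, ℤ)) : dsc (act Q g) = dsc Q := by
  have h := det_one g
  have h2 : dsc (act Q g) = dsc Q * (g 0 0 * g 1 1 - g 0 1 * g 1 0) ^ 2 := by
    unfold dsc act val
    simp only
    ring
  rw [h2, h]
  ring

theorem val_pos {Q : QF} {Δ : ℕ} (hΔ : 0 < Δ) (hQ : Q ∈ FD Δ) {v : ℤ × ℤ} (hv : v ≠ 0) :
    0 < val Q v := by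
  obtain ⟨hA, hD⟩ := hQ
  have hΔ' : (0 : ℤ) < Δ := by exact_mod_cast hΔ
  have h1 : 4 * Q.1 * val Q v = (2 * Q.1 * v.1 + Q.2.1 * v.2) ^ 2 + (Δ : ℤ) * v.2 ^ 2 := by
    rw [← hD]
    unfold val dsc
    ring
  have h2 : 0 < 4 * Q.1 * val Q v := by
    rw [h1]
    rcases eq_or_ne v.2 0 with h0 | h0
    · have h3 : v.1 ≠ 0 := by
        intro h4
        exact hv (Prod.ext h4 h0)
      rw [h0]
      have h5 : 2 * Q.1 * v.1 ≠ 0 := mul_ne_zero (by positivity) h3
      have h6 := pow_pos (abs_pos.mpr h5) 2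
      rw [sq_abs] at h6
      simpa using h6
    · have h6 := pow_pos (abs_pos.mpr h0) 2
      rw [sq_abs] at h6
      have h7 := mul_pos hΔ' h6
      nlinarith [sq_nonneg (2 * Q.1 * v.1 + Q.2.1 * v.2)]
  have h8 : 0 < 4 * Q.1 := by linarith
  exact (mul_pos_iff_of_pos_left h8).mp h2

theorem pf_ACT : T_ACT := by
  intro Q g h v
  refine ⟨val_act Q g v, dsc_act Q g, ?_, ?_, ?_, ?_⟩
  · unfold act val
    ext <;> simp
  · have h1 : gv g (h 0 0, h 1 0) = ((g * h) 0 0, (g * h) 1 0) := by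
      rw [mul00, mul10]; rfl
    have h2 : gv g (h 0 1, h 1 1) = ((g * h) 0 1, (g * h) 1 1) := by
      rw [mul01, mul11]; rfl
    have e1 : (act (act Q g) h).1 = (act Q (g * h)).1 := by
      show val (act Q g) (h 0 0, h 1 0) = val Q ((g * h) 0 0, (g * h) 1 0)
      rw [val_act, h1]
    have e2 : (act (act Q g) h).2.2 = (act Q (g * h)).2.2 := by
      show val (act Q g) (h 0 1, h 1 1) = val Q ((g * h) 0 1, (g * h) 1 1)
      rw [val_act, h2]
    have e3 : (act (act Q g) h).2.1 = (act Q (g * h)).2.1 := by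
      unfold act val
      simp only
      rw [mul00, mul01, mul10, mul11]
      ring
    exact Prod.ext e1 (Prod.ext e3 e2)
  · unfold gv
    simp only
    rw [mul00, mul01, mul10, mul11]
    refine Prod.ext ?_ ?_ <;> simp only <;> ring
  · intro Δ hΔ hQ
    refine ⟨⟨?_, ?_⟩, fun hv => val_pos hΔ hQ hv⟩
    · show 0 < val Q (g 0 0, g 1 0)
      refine val_pos hΔ hQ ?_
      intro h0
      have h1 : g 0 0 = 0 := congrArg Prod.fst h0
      have h2 : g 1 0 = 0 := congrArg Prod.snd h0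
      have h3 := det_one g
      rw [h1, h2] at h3
      simp at h3
    · rw [dsc_act]; exact hQ.2

end Pool.Agent.H50.CN
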