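import Pool.Agent.H31.CN.T3

/-!
# The error functional is negligible
-/

set_option autoImplicit false

open MeasureTheory Set Filter
open scoped Real

namespace Pool.Agent.H50.CN

open Pool.Agent.H31.CN

/-! ### Bounds for the functionals -/

/-- `r` has total variation at most `V` and support in the box of size `Z` -/
def BD (V Z : ℝ) (r : GR) : Prop :=
  ∀ (g : ℝ × ℝ → ℝ) (B : ℝ), 0 ≤ B → (∀ v : ℝ × ℝ, |v.1| ≤ Z → |v.2| ≤ Z → |g v| ≤ B) →
    |lin g r| ≤ V * B

theorem BD_mono {V Z V' Z' : ℝ} {r : GR} (h : BD V Z r) (hV : V ≤ V') (hZ : Z ≤ Z') :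
    BD V' Z' r := by
  intro g B hB hg
  exact (h g B hB fun v h1 h2 => hg v (h1.trans hZ) (h2.trans hZ)).trans
    (mul_le_mul_of_nonneg_right hV hB)

theorem BD_zero (Z : ℝ) : BD 0 Z 0 := by
  intro g B _ _
  simp

theorem BD_add {V W Z : ℝ} {r s : GR} (h : BD V Z r) (h' : BD W Z s) : BD (V + W) Z (r + s) := by
  intro g B hB hg
  rw [map_add, add_mul]
  exact (abs_add_le _ _).trans (add_le_add (h g B hB hg) (h' g B hB hg))

theorem BD_smul {V Z : ℝ} {r : GR} (h : BD V Z r) (a : ℝ) : BD (|a| * V) Z (a • r) := by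
  intro g B hB hg
  rw [map_smul, smul_eq_mul, abs_mul, mul_assoc]
  exact mul_le_mul_of_nonneg_left (h g B hB hg) (abs_nonneg a)

theorem BD_sum {ι : Type*} (s : Finset ι) {V : ι → ℝ} {Z : ℝ} {r : ι → GR}
    (h : ∀ i ∈ s, BD (V i) Z (r i)) : BD (∑ i ∈ s, V i) Z (∑ i ∈ s, r i) := by
  classical
  induction s using Finset.induction_on with
  | empty => simpa using BD_zero Z
  | insert i s hi ih =>
    rw [Finset.sum_insert hi, Finset.sum_insert hi]
    exact BD_add (h i (Finset.mem_insert_self i s))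
      (ih fun j hj => h j (Finset.mem_insert_of_mem hj))

theorem BD_E {x y Z : ℝ} (hx : |x| ≤ Z) (hy : |y| ≤ Z) : BD 1 Z (E x y) := by
  intro g B _ hg
  rw [lin_E, one_mul]
  exact hg (x, y) hx hy

theorem BD_one : BD 1 0 1 := by
  rw [← E_zero]
  exact BD_E (by simp) (by simp)

theorem lin_mul (g : ℝ × ℝ → ℝ) (r s : GR) :
    lin g (r * s) = lin (fun v => lin (fun w => g (v + w)) s) r := by
  induction r using GR_induction with
  | h0 => simp
  | hadd r r' hr hr' => rw [add_mul, map_add, map_add, hr, hr']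
  | hE a x y =>
    rw [smul_mul_assoc, map_smul, map_smul, lin_E]
    congr 1
    induction s using GR_induction with
    | h0 => simp
    | hadd r r' hr hr' => rw [mul_add, map_add, map_add, hr, hr']
    | hE a' x' y' =>
      rw [mul_smul_comm, map_smul, map_smul, E_mul, lin_E, lin_E]
      rfl

theorem BD_mul {V W Y Z : ℝ} {r s : GR} (h : BD V Y r) (h' : BD W Z s) (hW : 0 ≤ W) :
    BD (V * W) (Y + Z) (r * s) := by
  intro g B hB hg
  rw [lin_mul, mul_assoc]
  refine h _ (W * B) (mul_nonneg hW hB) fun v h1 h2 => ?_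
  refine h' _ B hB fun w h3 h4 => ?_
  refine hg _ ?_ ?_
  · exact (abs_add_le _ _).trans (add_le_add h1 h3)
  · exact (abs_add_le _ _).trans (add_le_add h2 h4)

theorem BD_prod {ι : Type*} (s : Finset ι) {V Z : ι → ℝ} {r : ι → GR}
    (hV : ∀ i ∈ s, 0 ≤ V i) (h : ∀ i ∈ s, BD (V i) (Z i) (r i)) :
    BD (∏ i ∈ s, V i) (∑ i ∈ s, Z i) (∏ i ∈ s, r i) := by
  classical
  induction s using Finset.induction_on with
  | empty => simpa using BD_one
  | insert i s hi ih =>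
    rw [Finset.prod_insert hi, Finset.prod_insert hi, Finset.sum_insert hi]
    exact BD_mul (h i (Finset.mem_insert_self i s))
      (ih (fun j hj => hV j (Finset.mem_insert_of_mem hj))
        fun j hj => h j (Finset.mem_insert_of_mem hj))
      (Finset.prod_nonneg fun j hj => hV j (Finset.mem_insert_of_mem hj))

theorem BD_exists (r : GR) : ∃ V Z : ℝ, 0 ≤ V ∧ 0 ≤ Z ∧ BD V Z r := by
  induction r using GR_induction with
  | h0 => exact ⟨0, 0, le_rfl, le_rfl, BD_zero 0⟩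
  | hadd r s hr hs =>
    obtain ⟨V, Z, hV, hZ, h⟩ := hr
    obtain ⟨V', Z', hV', hZ', h'⟩ := hs
    exact ⟨V + V', max Z Z', add_nonneg hV hV', le_max_of_le_left hZ,
      BD_add (BD_mono h le_rfl (le_max_left _ _)) (BD_mono h' le_rfl (le_max_right _ _))⟩
  | hE a x y =>
    refine ⟨|a| * 1, max |x| |y|, by positivity, by positivity,
      BD_smul (BD_E (le_max_left _ _) (le_max_right _ _)) a⟩

/-! ### The elements at the primes -/

theorem BD_al {p : ℕ} (hp : p.Prime) : BD (2 / p) (Real.log p) (al p) := by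
  have h1 : (1 : ℝ) ≤ p := by exact_mod_cast hp.one_lt.le
  have hl : 0 ≤ Real.log p := Real.log_nonneg h1
  have hz : |Real.log p| ≤ Real.log p := (abs_of_nonneg hl).le
  have h2 : BD (|1 / (p : ℝ)| * (1 + 1)) (Real.log p) (al p) :=
    BD_smul (BD_add (BD_E hz (by simpa using hl)) (BD_E (by simpa using hl) hz)) _
  refine BD_mono h2 (le_of_eq ?_) le_rfl
  rw [abs_of_nonneg (by positivity)]
  ring

theorem BD_et {p : ℕ} (hp : p.Prime) : BD (2 / p) (Real.log p) (et p) := by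
  have h1 : (1 : ℝ) ≤ p := by exact_mod_cast hp.one_lt.le
  have h0 : (0 : ℝ) < p := by linarith
  have hl : 0 ≤ Real.log p := Real.log_nonneg h1
  have hz : |Real.log p| ≤ Real.log p := (abs_of_nonneg hl).le
  have h2 : BD (|1 / (p : ℝ)| * 1 + |-(1 / (p : ℝ) ^ 3)| * 1) (Real.log p)
      ((1 / (p : ℝ)) • (1 : GR) + (-(1 / (p : ℝ) ^ 3)) • E (Real.log p) (Real.log p)) :=
    BD_add (BD_smul (BD_mono BD_one le_rfl hl) _) (BD_smul (BD_E hz hz) _)
  have h3 : et p = (1 / (p : ℝ)) • (1 : GR) +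
      (-(1 / (p : ℝ) ^ 3)) • E (Real.log p) (Real.log p) := by
    rw [neg_smul, ← sub_eq_add_neg]
    rfl
  rw [h3]
  refine BD_mono h2 ?_ le_rfl
  rw [abs_neg, abs_of_nonneg (by positivity), abs_of_nonneg (by positivity), mul_one, mul_one]
  have h4 : 1 / (p : ℝ) ^ 3 ≤ 1 / p := by
    refine one_div_le_one_div_of_le h0 ?_
    calc (p : ℝ) = (p : ℝ) ^ 1 := (pow_one _).symm
      _ ≤ (p : ℝ) ^ 3 := pow_le_pow_right₀ h1 (by norm_num)
  calc 1 / (p : ℝ) + 1 / (p : ℝ) ^ 3 ≤ 1 / (p : ℝ) + 1 / (p : ℝ) := by linarith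
    _ = 2 / p := by ring

theorem prod_eq {n : ℕ} (hn : Squarefree n) :
    ∏ p ∈ n.primeFactors, (2 / (p : ℝ)) = 2 ^ n.primeFactors.card / n := by
  rw [Finset.prod_div_distrib, Finset.prod_const, ← Nat.cast_prod,
    Nat.prod_primeFactors_of_squarefree hn]

theorem sum_eq {n : ℕ} (hn : Squarefree n) :
    ∑ p ∈ n.primeFactors, Real.log p = Real.log n := by
  rw [← Real.log_prod (fun p hp => by
    have := (Nat.prime_of_mem_primeFactors hp).pos
    positivity), ← Nat.cast_prod, Nat.prod_primeFactors_of_squarefree hn]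

/-- the divisor sum -/
noncomputable def Sn (n₀ : ℕ) : ℝ := ∑ n ∈ Finset.Icc 1 n₀, 2 ^ n.primeFactors.card / (n : ℝ)

theorem Sn_nonneg (n₀ : ℕ) : 0 ≤ Sn n₀ := Finset.sum_nonneg fun _ _ => by positivity

theorem two_pow_le {n : ℕ} (hn : n ≠ 0) : 2 ^ n.primeFactors.card ≤ n.divisors.card := by
  rw [Nat.card_divisors hn, ← Finset.prod_const]
  refine Finset.prod_le_prod' fun p hp => ?_
  have h1 := (Nat.prime_of_mem_primeFactors hp).factorization_pos_of_dvd hn
    (Nat.dvd_of_mem_primeFactors hp)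
  omega

theorem Sn_le (n₀ : ℕ) : Sn n₀ ≤ (1 + Real.log n₀) ^ 2 := by
  have h1 : Sn n₀ ≤ ∑ n ∈ Finset.Icc 1 n₀, ∑ x ∈ n.divisorsAntidiagonal,
      ((x.1 : ℝ)⁻¹ * (x.2 : ℝ)⁻¹) := by
    refine Finset.sum_le_sum fun n hn => ?_
    have hn1 := (Finset.mem_Icc.1 hn).1
    have hn0 : n ≠ 0 := by omega
    have h2 : ∀ x ∈ n.divisorsAntidiagonal, ((x.1 : ℝ)⁻¹ * (x.2 : ℝ)⁻¹) = (n : ℝ)⁻¹ := by
      intro x hx
      have h3 := (Nat.mem_divisorsAntidiagonal.1 hx).1
      rw [← mul_inv, ← h3]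
      push_cast
      rfl
    rw [Finset.sum_congr rfl h2, Nat.sum_divisorsAntidiagonal (fun _ _ => (n : ℝ)⁻¹),
      Finset.sum_const, nsmul_eq_mul, div_eq_mul_inv]
    refine mul_le_mul_of_nonneg_right ?_ (by positivity)
    exact_mod_cast two_pow_le hn0
  have h2 : ∑ n ∈ Finset.Icc 1 n₀, ∑ x ∈ n.divisorsAntidiagonal,
      ((x.1 : ℝ)⁻¹ * (x.2 : ℝ)⁻¹) ≤
      ∑ x ∈ Finset.Icc 1 n₀ ×ˢ Finset.Icc 1 n₀, ((x.1 : ℝ)⁻¹ * (x.2 : ℝ)⁻¹) := by
    rw [← Finset.sum_biUnion]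
    · refine Finset.sum_le_sum_of_subset_of_nonneg ?_ fun _ _ _ => by positivity
      intro x hx
      obtain ⟨n, hn, hx⟩ := Finset.mem_biUnion.1 hx
      obtain ⟨h3, h4⟩ := Nat.mem_divisorsAntidiagonal.1 hx
      have hn2 := (Finset.mem_Icc.1 hn).2
      have ha : x.1 ≠ 0 := fun h => h4 (by rw [← h3, h, zero_mul])
      have hb : x.2 ≠ 0 := fun h => h4 (by rw [← h3, h, mul_zero])
      have h5 : x.1 ≤ n := Nat.le_of_dvd (Nat.pos_of_ne_zero h4) ⟨x.2, h3.symm⟩
      have h6 : x.2 ≤ n := Nat.le_of_dvd (Nat.pos_of_ne_zero h4) ⟨x.1, by rw [mul_comm, h3]⟩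
      simp only [Finset.mem_product, Finset.mem_Icc]
      omega
    · intro a _ b _ hab
      refine Finset.disjoint_left.2 fun x hx hy => hab ?_
      rw [← (Nat.mem_divisorsAntidiagonal.1 hx).1, ← (Nat.mem_divisorsAntidiagonal.1 hy).1]
  have h3 : ∑ x ∈ Finset.Icc 1 n₀ ×ˢ Finset.Icc 1 n₀, ((x.1 : ℝ)⁻¹ * (x.2 : ℝ)⁻¹) =
      (∑ n ∈ Finset.Icc 1 n₀, (n : ℝ)⁻¹) ^ 2 := by
    rw [Finset.sum_product, sq, Finset.sum_mul_sum]
  have h4 : ∑ n ∈ Finset.Icc 1 n₀, (n : ℝ)⁻¹ ≤ 1 + Real.log n₀ := by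
    have h5 := harmonic_le_one_add_log n₀
    rw [harmonic_eq_sum_Icc] at h5
    push_cast at h5
    exact h5
  refine h1.trans (h2.trans ?_)
  rw [h3]
  exact pow_le_pow_left₀ (Finset.sum_nonneg fun _ _ => by positivity) h4 2

/-! ### The mollifier sum -/

theorem mr_le (m : ℕ) : |mr m| ≤ 1 := by
  unfold mr
  exact_mod_cast ArithmeticFunction.abs_moebius_le_one

theorem cm_le (P : Polynomial ℝ) : ∃ C : ℝ, 0 ≤ C ∧ ∀ (M : ℝ) (N m : ℕ), 1 < M → 1 ≤ m →
    |cm P M N m| ≤ C := by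
  obtain ⟨C, hC⟩ := (isCompact_Icc (a := (0 : ℝ)) (b := 1)).exists_bound_of_continuousOn
    (f := fun t => P.eval t) P.continuous.continuousOn
  have hC0 : 0 ≤ C := (norm_nonneg _).trans (hC 0 (by simp))
  refine ⟨C, hC0, fun M N m hM hm => ?_⟩
  unfold cm
  split_ifs with h
  · have hm1 : (1 : ℝ) ≤ m := by exact_mod_cast hm
    have hlM : 0 < Real.log M := Real.log_pos hM
    have h1 : Real.log (M / m) = Real.log M - Real.log m :=
      Real.log_div (by linarith) (by linarith)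
    have h2 : 0 ≤ Real.log m := Real.log_nonneg hm1
    have h3 : Real.log m ≤ Real.log M := Real.log_le_log (by linarith) h.1
    have h4 : Real.log (M / m) / Real.log M ∈ Set.Icc (0 : ℝ) 1 := by
      rw [h1]
      constructor
      · exact div_nonneg (by linarith) hlM.le
      · rw [div_le_one hlM]; linarith
    have h5 := hC _ h4
    rw [Real.norm_eq_abs] at h5
    rw [abs_mul]
    calc |mr m| * |P.eval (Real.log (M / m) / Real.log M)| ≤ 1 * C :=
          mul_le_mul (mr_le m) h5 (abs_nonneg _) zero_le_one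
      _ = C := one_mul C
  · simpa using hC0

theorem cm_sq (P : Polynomial ℝ) (M : ℝ) (N m : ℕ) (h : ¬ Squarefree m) : cm P M N m = 0 := by
  unfold cm mr
  rw [ArithmeticFunction.moebius_eq_zero_of_not_squarefree h]
  simp

theorem BD_main (hCNV : T_CNV) (P : Polynomial ℝ) {C : ℝ} (hC0 : 0 ≤ C)
    (hC : ∀ (M : ℝ) (N m : ℕ), 1 < M → 1 ≤ m → |cm P M N m| ≤ C) (N : ℕ) (M : ℝ) (hM : 1 < M) :
    BD (C ^ 2 * Sn ⌊M⌋₊ ^ 3) (2 * Real.log M)
      (∑ m₁ ∈ Finset.Icc 1 ⌊M⌋₊, ∑ m₂ ∈ Finset.Icc 1 ⌊M⌋₊,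
        (cm P M N m₁ * cm P M N m₂) • ka m₁ m₂) := by
  have hM0 : 0 < M := by linarith
  rw [hCNV (cm P M N) ⌊M⌋₊ (fun m hm => cm_sq P M N m hm) (fun m hm => by
    have h1 : M < m := (Nat.floor_lt hM0.le).1 hm
    unfold cm
    rw [if_neg]
    rintro ⟨h2, _⟩
    linarith)]
  have key : ∀ d ∈ (Finset.Icc 1 ⌊M⌋₊).filter (fun d => Squarefree d),
      BD (2 ^ d.primeFactors.card / (d : ℝ) * (C * Sn ⌊M⌋₊) ^ 2) (2 * Real.log M)
        ((∏ p ∈ d.primeFactors, et p) *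
        (∑ n ∈ (Finset.Icc 1 ⌊M⌋₊).filter (fun n => Nat.Coprime n d),
          cm P M N (d * n) • ∏ p ∈ n.primeFactors, al p) ^ 2) := by
    intro d hd
    obtain ⟨hd1, hdsq⟩ := Finset.mem_filter.1 hd
    obtain ⟨hd1, hd2⟩ := Finset.mem_Icc.1 hd1
    have hdR : (1 : ℝ) ≤ d := by exact_mod_cast hd1
    have hdM : (d : ℝ) ≤ M := (Nat.le_floor_iff hM0.le).1 hd2
    have hld : 0 ≤ Real.log d := Real.log_nonneg hdR
    have hldM : Real.log d ≤ Real.log M := Real.log_le_log (by linarith) hdM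
    have h1 : BD (2 ^ d.primeFactors.card / (d : ℝ)) (Real.log d)
        (∏ p ∈ d.primeFactors, et p) := by
      rw [← prod_eq hdsq, ← sum_eq hdsq]
      exact BD_prod _ (fun p _ => by positivity)
        fun p hp => BD_et (Nat.prime_of_mem_primeFactors hp)
    have h2 : BD (∑ n ∈ (Finset.Icc 1 ⌊M⌋₊).filter (fun n => Nat.Coprime n d),
        C * (2 ^ n.primeFactors.card / (n : ℝ))) (Real.log M - Real.log d)
        (∑ n ∈ (Finset.Icc 1 ⌊M⌋₊).filter (fun n => Nat.Coprime n d),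
          cm P M N (d * n) • ∏ p ∈ n.primeFactors, al p) := by
      refine BD_sum _ fun n hn => ?_
      have hn1 := (Finset.mem_Icc.1 (Finset.mem_filter.1 hn).1).1
      have hnR : (1 : ℝ) ≤ n := by exact_mod_cast hn1
      by_cases hz : cm P M N (d * n) = 0
      · rw [hz, zero_smul]
        exact BD_mono (BD_zero _) (by positivity) le_rfl
      · have hsq : Squarefree (d * n) := by
          by_contra hcon
          exact hz (cm_sq P M N _ hcon)
        have hnsq : Squarefree n := hsq.squarefree_of_dvd (Dvd.intro_left d rfl)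
        have hle : ((d * n : ℕ) : ℝ) ≤ M := by
          by_contra hcon
          refine hz ?_
          unfold cm
          rw [if_neg fun h => hcon h.1]
        have hln : Real.log n ≤ Real.log M - Real.log d := by
          have h3 := Real.log_le_log (by push_cast; positivity) hle
          push_cast at h3
          rw [Real.log_mul (by linarith) (by linarith)] at h3
          linarith
        have h4 : BD (2 ^ n.primeFactors.card / (n : ℝ)) (Real.log n)
            (∏ p ∈ n.primeFactors, al p) := by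
          rw [← prod_eq hnsq, ← sum_eq hnsq]
          exact BD_prod _ (fun p _ => by positivity)
            fun p hp => BD_al (Nat.prime_of_mem_primeFactors hp)
        refine BD_mono (BD_smul h4 _) ?_ hln
        refine mul_le_mul_of_nonneg_right (hC M N _ hM ?_) (by positivity)
        exact Nat.succ_le_of_lt (Nat.mul_pos hd1 hn1)
    have h3 : ∑ n ∈ (Finset.Icc 1 ⌊M⌋₊).filter (fun n => Nat.Coprime n d),
        C * (2 ^ n.primeFactors.card / (n : ℝ)) ≤ C * Sn ⌊M⌋₊ := by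
      rw [← Finset.mul_sum]
      refine mul_le_mul_of_nonneg_left ?_ hC0
      exact Finset.sum_le_sum_of_subset_of_nonneg (Finset.filter_subset _ _)
        (fun _ _ _ => by positivity)
    have h4 := BD_mono h2 h3 le_rfl
    have h5 := BD_mul h4 h4 (mul_nonneg hC0 (Sn_nonneg _))
    have h6 := BD_mul h1 h5 (mul_self_nonneg _)
    rw [sq, sq]
    refine BD_mono h6 le_rfl ?_
    linarith
  have h7 := BD_sum _ key
  refine BD_mono h7 ?_ le_rfl
  rw [← Finset.sum_mul]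
  have h8 : ∑ d ∈ (Finset.Icc 1 ⌊M⌋₊).filter (fun d => Squarefree d),
      2 ^ d.primeFactors.card / (d : ℝ) ≤ Sn ⌊M⌋₊ :=
    Finset.sum_le_sum_of_subset_of_nonneg (Finset.filter_subset _ _)
      (fun _ _ _ => by positivity)
  calc _ ≤ Sn ⌊M⌋₊ * (C * Sn ⌊M⌋₊) ^ 2 :=
        mul_le_mul_of_nonneg_right h8 (sq_nonneg _)
    _ = _ := by ring

/-! ### The limit -/

theorem lim_aux (K a δ : ℝ) (hδ : 0 < δ) :
    Tendsto (fun u : ℝ => K * ((a + u) ^ 8 * Real.exp (-(δ * u)))) atTop (nhds 0) := by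
  have h1 := Real.tendsto_pow_mul_exp_neg_atTop_nhds_zero 8
  have h2 : Tendsto (fun u : ℝ => δ * (a + u)) atTop atTop :=
    (tendsto_atTop_add_const_left _ a tendsto_id).const_mul_atTop hδ
  have h3 := (h1.comp h2).const_mul (K * (Real.exp (δ * a) / δ ^ 8))
  rw [mul_zero] at h3
  refine h3.congr fun u => ?_
  simp only [Function.comp]
  have h4 : Real.exp (-(δ * (a + u))) = Real.exp (-(δ * u)) * Real.exp (-(δ * a)) := by
    rw [← Real.exp_add]; congr 1; ring
  have h5 : Real.exp (δ * a) * Real.exp (-(δ * a)) = 1 := by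
    rw [← Real.exp_add]; simp
  rw [h4, mul_pow]
  field_simp
  linear_combination K * (a + u) ^ 8 * h5

theorem pf_PER (hCNV : T_CNV) : T_PER := by
  intro N₀ P N θ L₀ C₀ ε f hθ hθ4 hε hf
  obtain ⟨V₀, Z₀, hV₀, hZ₀, hN₀⟩ := BD_exists N₀
  obtain ⟨C, hC0, hC⟩ := cm_le P
  set L : ℝ := |L₀| with hL
  have hL0 : 0 ≤ L := abs_nonneg L₀
  -- the constants
  set a : ℝ := 1 + L + 2 * Z₀ with ha
  have ha1 : 1 ≤ a := by linarith
  set δ : ℝ := (1 / 2 - 2 * θ) / 4 with hδ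
  have hδ0 : 0 < δ := by rw [hδ]; linarith
  set K : ℝ := V₀ * C ^ 2 * |C₀| * 4 * Real.exp ((L + Z₀) / 4) with hK
  have hK0 : 0 ≤ K := by positivity
  have hlim := lim_aux K a δ hδ0
  obtain ⟨U, hU⟩ := (hlim.eventually (gt_mem_nhds hε)).exists_forall_of_atTop
  refine ⟨max (Real.exp (max U 1)) (Real.exp ((L + Z₀) / (4 * δ))), fun X lam hX hlam => ?_⟩
  have hX1 : Real.exp (max U 1) ≤ X := (le_max_left _ _).trans hX
  have hX2 : Real.exp ((L + Z₀) / (4 * δ)) ≤ X := (le_max_right _ _).trans hX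
  have hX0 : 0 < X := (Real.exp_pos _).trans_le hX1
  set u : ℝ := Real.log X with hu
  have hu1 : max U 1 ≤ u := by
    rw [hu, Real.le_log_iff_exp_le hX0]; exact hX1
  have hu2 : (L + Z₀) / (4 * δ) ≤ u := by
    rw [hu, Real.le_log_iff_exp_le hX0]; exact hX2
  have hu3 : 1 ≤ u := (le_max_right _ _).trans hu1
  have hu4 : L + Z₀ ≤ 4 * δ * u := by
    rw [div_le_iff₀ (by positivity)] at hu2
    linarith
  set M : ℝ := X ^ θ with hMd
  have hlM : Real.log M = θ * u := by rw [hMd, Real.log_rpow hX0]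
  have hM1 : 1 < M := by
    rw [hMd]
    refine Real.one_lt_rpow ?_ hθ
    by_contra hcon
    have h1 : Real.log X ≤ 0 := Real.log_nonpos hX0.le (not_lt.1 hcon)
    linarith
  have hmain := BD_main hCNV P hC0 hC N M hM1
  have hVn : 0 ≤ C ^ 2 * Sn ⌊M⌋₊ ^ 3 := by
    have := Sn_nonneg ⌊M⌋₊
    positivity
  have htot := BD_mul hN₀ hmain hVn
  -- the bound of f
  have hlam' := abs_le.1 (hlam.trans (le_abs_self L₀))
  set B : ℝ := |C₀| * (2 * (a + u)) ^ 2 * Real.exp ((L + Z₀) / 4 - δ * u) with hB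
  have hB0 : 0 ≤ B := by positivity
  have hfB : ∀ v : ℝ × ℝ, |v.1| ≤ Z₀ + 2 * Real.log M → |v.2| ≤ Z₀ + 2 * Real.log M →
      |f lam v| ≤ B := by
    intro v h1 h2
    rw [hlM] at h1 h2
    have hv2 := (abs_le.1 h2).2
    have h3 : v.2 ≤ lam := by
      have : 4 * δ = 1 / 2 - 2 * θ := by rw [hδ]; ring
      have h9 : (1 / 2 - 2 * θ) * u = u / 2 - 2 * (θ * u) := by ring
      rw [this, h9] at hu4
      have := hlam'.1
      linarith
    refine (hf lam v h3).trans ?_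
    have h4 : |lam| ≤ u / 2 + L := by
      rw [abs_le]
      constructor <;> linarith [hlam'.1, hlam'.2]
    have h5 : 1 + |lam| + |v.1| + |v.2| ≤ 2 * (a + u) := by
      have : θ * u ≤ 1 / 4 * u := mul_le_mul_of_nonneg_right hθ4.le (by linarith)
      rw [ha]
      linarith
    have h6 : Real.exp (-((lam - v.2) / 4)) ≤ Real.exp ((L + Z₀) / 4 - δ * u) := by
      refine Real.exp_le_exp.2 ?_
      rw [hδ]
      have := hlam'.1
      linarith
    have h7 : (1 + |lam| + |v.1| + |v.2|) ^ 2 ≤ (2 * (a + u)) ^ 2 :=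
      pow_le_pow_left₀ (by positivity) h5 2
    calc C₀ * (1 + |lam| + |v.1| + |v.2|) ^ 2 * Real.exp (-((lam - v.2) / 4))
        ≤ |C₀| * (1 + |lam| + |v.1| + |v.2|) ^ 2 * Real.exp (-((lam - v.2) / 4)) := by
          refine mul_le_mul_of_nonneg_right ?_ (Real.exp_pos _).le
          exact mul_le_mul_of_nonneg_right (le_abs_self C₀) (sq_nonneg _)
      _ ≤ |C₀| * (2 * (a + u)) ^ 2 * Real.exp ((L + Z₀) / 4 - δ * u) := by
          refine mul_le_mul ?_ h6 (Real.exp_pos _).le (by positivity)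
          exact mul_le_mul_of_nonneg_left h7 (abs_nonneg _)
  have hfin := htot (f lam) B hB0 hfB
  refine hfin.trans ?_
  have hSn : Sn ⌊M⌋₊ ^ 3 ≤ (a + u) ^ 6 := by
    have h1 := Sn_le ⌊M⌋₊
    have hfl : 1 ≤ ⌊M⌋₊ := (Nat.one_le_floor_iff M).2 hM1.le
    have hfl' : (1 : ℝ) ≤ (⌊M⌋₊ : ℝ) := by exact_mod_cast hfl
    have h2 : Real.log (⌊M⌋₊ : ℝ) ≤ u := by
      have h3 := Real.log_le_log (by linarith) (Nat.floor_le (by linarith : (0 : ℝ) ≤ M))
      rw [hlM] at h3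
      have h8 : θ * u ≤ 1 * u := mul_le_mul_of_nonneg_right (by linarith) (by linarith)
      linarith
    have h3 : 0 ≤ Real.log (⌊M⌋₊ : ℝ) := Real.log_nonneg hfl'
    have h4 : Sn ⌊M⌋₊ ≤ (a + u) ^ 2 :=
      h1.trans (pow_le_pow_left₀ (by linarith) (by linarith) 2)
    calc Sn ⌊M⌋₊ ^ 3 ≤ ((a + u) ^ 2) ^ 3 := pow_le_pow_left₀ (Sn_nonneg _) h4 3
      _ = (a + u) ^ 6 := by ring
  have hUu := hU u ((le_max_left _ _).trans hu1)
  refine le_trans ?_ hUu.le
  calc V₀ * (C ^ 2 * Sn ⌊M⌋₊ ^ 3) * B ≤ V₀ * (C ^ 2 * (a + u) ^ 6) * B := by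
        refine mul_le_mul_of_nonneg_right ?_ hB0
        exact mul_le_mul_of_nonneg_left (mul_le_mul_of_nonneg_left hSn (sq_nonneg C)) hV₀
    _ = K * ((a + u) ^ 8 * Real.exp (-(δ * u))) := by
        rw [hB, hK, Real.exp_sub, Real.exp_neg]
        field_simp
        ring

end Pool.Agent.H50.CN
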